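import Mathlib
import Pool.Agent.Q7.TZ.Shp
import Pool.Agent.Q7.DB.Real
import Pool.Agent.Q7.DB.RealNum

/-!
# Even multiplicities of symplectic characters
-/

set_option autoImplicit false
set_option linter.unusedSectionVars false

namespace Pool.Agent.Q7.CS

open Pool.Agent.H302R2 Pool.Agent.H541R3.ART Pool.Agent.W446.AS Pool.Agent.H302R5
  Pool.Agent.H302R6 Pool.Agent.Q7.TZ Pool.Agent.Q7.DB

/-- all multiplicities of symplectic characters are even -/
def EvS {G : Type} [Group G] (θ : G → ℂ) : Prop :=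
  ∀ (H : Type) [Group H] [Finite H] (φ : H →* G) (ψ : H → ℂ), ψ ∈ Irr H → Sy ψ →
    ∃ k : ℤ, pr (fun x => θ (φ x)) ψ = 2 * k

lemma EvS.comp {G : Type} [Group G] {θ : G → ℂ} (h : EvS θ) {K : Type} [Group K]
    (i : K →* G) : EvS (fun x => θ (i x)) := by
  intro H _ _ φ ψ hψ h1
  exact h H (i.comp φ) ψ hψ h1

/-- inflation -/
lemma sy_infl {G Y : Type} [Group G] [Finite G] [Group Y] [Finite Y] {π : G →* Y}
    (hπ : Function.Surjective π) (ψ : Y → ℂ) : Sy (fun g => ψ (π g)) ↔ Sy ψ := by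
  classical
  have : Fintype G := Fintype.ofFinite G
  have : Fintype Y := Fintype.ofFinite Y
  have hk : (Nat.card π.ker : ℂ) ≠ 0 := card_ne
  unfold Sy
  have h1 := sum_comp_surj π hπ (fun y : Y => ψ (y ^ 2))
  have h2 : ∑ᶠ g, ψ (π (g ^ 2)) = (Nat.card π.ker : ℂ) * ∑ᶠ y, ψ (y ^ 2) := by
    rw [finsum_eq_sum_of_fintype, finsum_eq_sum_of_fintype, ← h1]
    exact Finset.sum_congr rfl fun g _ => by rw [map_pow]
  rw [h2, card_eq_ker_mul hπ]
  constructor
  · rintro ⟨h3, h4⟩
    refine ⟨fun y => ?_, ?_⟩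
    · obtain ⟨g, rfl⟩ := hπ y
      rw [← map_inv]
      exact h3 g
    · apply mul_left_cancel₀ hk
      rw [h4]
      push_cast
      ring
  · rintro ⟨h3, h4⟩
    refine ⟨fun g => ?_, ?_⟩
    · change ψ (π g⁻¹) = ψ (π g)
      rw [map_inv]
      exact h3 _
    · rw [h4]
      push_cast
      ring

lemma EvS.push {G : Type} [Group G] [Fintype G] {Y : Type} [Group Y] [Finite Y] {π : G →* Y}
    (hπ : Function.Surjective π) {θ : G → ℂ} (h : EvS θ) : EvS (push π θ) := by
  classical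
  intro H _ _ φ ψ hψ h1
  let F : Subgroup (H × G) :=
    { carrier := {x | φ x.1 = π x.2}
      mul_mem' := by
        intro a b ha hb
        change φ (a.1 * b.1) = π (a.2 * b.2)
        rw [map_mul, map_mul, show φ a.1 = π a.2 from ha, show φ b.1 = π b.2 from hb]
      one_mem' := by
        change φ 1 = π 1
        rw [map_one, map_one]
      inv_mem' := by
        intro a ha
        change φ a.1⁻¹ = π a.2⁻¹
        rw [map_inv, map_inv, show φ a.1 = π a.2 from ha] }
  let p1 : F →* H := (MonoidHom.fst H G).comp F.subtype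
  let p2 : F →* G := (MonoidHom.snd H G).comp F.subtype
  have hp1 : Function.Surjective p1 := by
    intro x
    obtain ⟨g, hg⟩ := hπ (φ x)
    exact ⟨⟨(x, g), hg.symm⟩, rfl⟩
  have : Fintype F := Fintype.ofFinite F
  have : Fintype p1.ker := Fintype.ofFinite _
  have : Fintype π.ker := Fintype.ofFinite _
  obtain ⟨k, hk⟩ := h F p2 (fun x => ψ (p1 x)) (infl_irr hp1 hψ) ((sy_infl hp1 ψ).mpr h1)
  refine ⟨k, ?_⟩
  rw [← hk, ← pr_push hp1]
  congr 1
  funext x
  obtain ⟨y, rfl⟩ := hp1 x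
  rw [push_apply]
  have hy : φ (p1 y) = π (p2 y) := y.2
  rw [hy, push_apply]
  let e : p1.ker ≃ π.ker :=
    { toFun := fun n => ⟨p2 n, by
        rw [MonoidHom.mem_ker]
        have h2 : φ (p1 n) = π (p2 n) := (n : F).2
        rw [← h2, MonoidHom.mem_ker.mp n.2, map_one]⟩
      invFun := fun m => ⟨⟨(1, m), by
        change φ 1 = π (m : G)
        rw [map_one]
        exact (MonoidHom.mem_ker.mp m.2).symm⟩, rfl⟩
      left_inv := by
        intro n
        apply Subtype.ext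
        apply Subtype.ext
        apply Prod.ext
        · exact (MonoidHom.mem_ker.mp n.2).symm
        · rfl
      right_inv := by
        intro m
        rfl }
  rw [Nat.card_congr e, ← Equiv.sum_comp e]
  congr 1

/-- from subgroups to homomorphisms -/
lemma evS_of_sub {G : Type} [Group G] [Finite G] {θ : G → ℂ}
    (h : ∀ (H : Subgroup G) (ψ : H → ℂ), ψ ∈ Irr H → Sy ψ →
      ∃ k : ℤ, pr (fun x : H => θ x) ψ = 2 * k) : EvS θ := by
  classical
  intro H _ _ φ ψ hψ h1
  have : Fintype H := Fintype.ofFinite H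
  let φ' : H →* φ.range := φ.rangeRestrict
  have hφ' : Function.Surjective φ' := φ.rangeRestrict_surjective
  have hφ : ∀ x, ((φ' x : φ.range) : G) = φ x := fun x => rfl
  by_cases h2 : ∃ x ∈ φ'.ker, ψ x ≠ ψ 1
  · obtain ⟨x, hx, hx1⟩ := h2
    refine ⟨0, ?_⟩
    rw [pr_eq, pair_zero (θ := fun x => θ (φ x)) hψ φ'.ker (by
      intro n hn y
      have h3 : φ n = 1 := by rw [← hφ, MonoidHom.mem_ker.mp hn]; rfl
      rw [map_mul, h3, one_mul]) hx hx1, mul_zero]
    simp
  · push Not at h2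
    obtain ⟨n, ρ, hρ, rfl⟩ := exists_rep hψ
    have : Fintype φ'.ker := Fintype.ofFinite _
    obtain ⟨e, he, he1⟩ := irr_deg_pos hψ
    have htriv : ∀ g ∈ φ'.ker, ρ g = 1 := by
      rcases hρ.normal_dich φ'.ker with h3 | h3
      · exact h3
      · exfalso
        have h4 := h3 1
        have h5 : ∀ x : φ'.ker, ρ.character (1 * x) = e := by
          intro x
          rw [one_mul, h2 x x.2, he1]
        rw [Finset.sum_congr rfl (fun x _ => h5 x), Finset.sum_const, nsmul_eq_mul,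
          Finset.card_univ] at h4
        have h6 : (Fintype.card φ'.ker : ℂ) ≠ 0 := by
          rw [← Nat.card_eq_fintype_card]
          exact_mod_cast Nat.card_pos.ne'
        rcases mul_eq_zero.mp h4 with h7 | h7
        · exact h6 h7
        · exact he.ne' (by exact_mod_cast h7)
    obtain ⟨ψ', hψ', h3⟩ := descend_irr hφ' hρ htriv
    have h4 : ρ.character = fun g => ψ' (φ' g) := funext h3
    obtain ⟨k, hk⟩ := h φ.range ψ' hψ' ((sy_infl hφ' ψ').mp (by rw [← h4]; exact h1))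
    refine ⟨k, ?_⟩
    rw [← hk]
    rw [h4, ← pr_push hφ']
    congr 1
    funext y
    obtain ⟨g, rfl⟩ := hφ' y
    rw [push_apply]
    have h5 : ∀ n : φ'.ker, θ (φ (g * n)) = θ (φ' g : φ.range) := by
      intro n
      have h6 : φ n = 1 := by rw [← hφ, MonoidHom.mem_ker.mp n.2]; rfl
      rw [map_mul, h6, mul_one, hφ]
    rw [Finset.sum_congr rfl (fun n _ => h5 n), Finset.sum_const, Finset.card_univ, nsmul_eq_mul,
      ← Nat.card_eq_fintype_card, ← mul_assoc, inv_mul_cancel₀ card_ne, one_mul]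

/-- the number of the elements of `F` with square one is the one for `+` type -/
def PlusType {X : Type} [Group X] (F : Subgroup X) (D : ℕ) : Prop :=
  2 * Nat.card {x : F // x ^ 2 = 1} = Nat.card F + 2 * D

lemma sq_mem {X : Type} [Group X] [Finite X] {F : Subgroup X} {D : ℕ} (hF : Frame X F D)
    (h2 : Nat.card (Subgroup.center X) = 2) (x : X) (hx : x ∈ F) : x ^ 2 ∈ Subgroup.center X := by
  have hZ : ∀ z ∈ Subgroup.center X, z ^ 2 = 1 := by
    intro z hz
    have h3 : (⟨z, hz⟩ : Subgroup.center X) ^ Nat.card (Subgroup.center X) = 1 := pow_card_eq_one'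
    rw [h2] at h3
    exact congrArg Subtype.val h3
  apply hF.cent
  intro y hy
  have hc := hF.comm x hx y hy
  set c := x * y * x⁻¹ * y⁻¹ with hcdef
  have h5 : x * y = c * y * x := by rw [hcdef]; group
  have h6 : x * c = c * x := Subgroup.mem_center_iff.mp hc x
  calc x ^ 2 * y = x * (x * y) := by rw [pow_two, mul_assoc]
    _ = x * c * y * x := by rw [h5]; group
    _ = c * (x * y) * x := by rw [h6]; group
    _ = c ^ 2 * (y * x ^ 2) := by rw [h5]; simp only [pow_two, mul_assoc]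
    _ = y * x ^ 2 := by rw [hZ c hc, one_mul]

/-- **Parity**: over a frame which is not of plus type, the degree of the part is an even multiple
of the degree of the frame. -/
theorem parity_frame {X : Type} [Group X] [Finite X] {F : Subgroup X} {D : ℕ} (hF : Frame X F D)
    (h2 : Nat.card (Subgroup.center X) = 2) {ω : Subgroup.center X →* ℂˣ}
    (hω : Function.Injective ω) {θ : X → ℂ} (hE : EvS θ) {χ : X → ℂ} (hχ : χ ∈ Irr X)
    (hχω : ∀ (g : X) (z : Subgroup.center X), χ (g * z) = ((ω z : ℂˣ) : ℂ) * χ g)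
    (hn : ¬ PlusType F D) {a : ℕ} (ha : lam (Subgroup.center X) ω θ 1 = a) :
    ∃ j : ℤ, (a : ℤ) = 2 * j * D := by
  classical
  have : Fintype X := Fintype.ofFinite X
  have : Fintype F := Fintype.ofFinite F
  have : Fintype (Subgroup.center X) := Fintype.ofFinite _
  have hZF := hF.le
  have hD0 : (D : ℂ) ≠ 0 := by
    have := hF.one_lt
    exact_mod_cast (by omega : D ≠ 0)
  have hZ2 : ∀ z : Subgroup.center X, z ^ 2 = 1 := by
    intro z
    have h3 : z ^ Nat.card (Subgroup.center X) = 1 := pow_card_eq_one'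
    rwa [h2] at h3
  have hωpm : ∀ z : Subgroup.center X, z ≠ 1 → ((ω z : ℂˣ) : ℂ) = -1 := by
    intro z hz
    have h3 : ((ω z : ℂˣ) : ℂ) * ((ω z : ℂˣ) : ℂ) = 1 := by
      rw [← Units.val_mul, ← map_mul, ← pow_two, hZ2, map_one, Units.val_one]
    rcases mul_self_eq_one_iff.mp h3 with h | h
    · exfalso
      apply hz
      apply hω
      rw [map_one]
      exact Units.ext h
    · exact h
  have hωinv : ∀ z : Subgroup.center X, ω z⁻¹ = ω z := by
    intro z
    have : z⁻¹ = z := by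
      rw [inv_eq_iff_mul_eq_one, ← pow_two, hZ2]
    rw [this]
  -- a constituent on `F`
  obtain ⟨φ, hφ, hφp⟩ : ∃ φ ∈ Irr F, pr (fun x : F => χ x) φ ≠ 0 := by
    by_contra hcon
    push Not at hcon
    have hv : Virt (fun x : F => χ x) := Virt.comp (AddSubgroup.subset_closure hχ) F.subtype
    have h3 := hv.expand 1
    rw [Finset.sum_eq_zero (fun ψ hψ => by rw [hcon ψ (mem_irrF.mp hψ), zero_mul])] at h3
    obtain ⟨e, he, he1⟩ := irr_deg_pos hχ
    have h4 : χ ((1 : F) : X) = e := he1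
    rw [h4] at h3
    exact he.ne' (by exact_mod_cast h3)
  have hχv : Virt χ := AddSubgroup.subset_closure hχ
  have hφω : ∀ (g : F) (z : Subgroup.center X), φ (g * ⟨z, hZF z.2⟩) = ((ω z : ℂˣ) : ℂ) * φ g := by
    have hlam : lam (Subgroup.center X) ω χ = χ := by
      rw [lam_of_central hχω, if_pos rfl]
    rcases pr_restrict (μ := ω) le_rfl hχv hZF hφ with ⟨-, h3⟩ | h3
    · intro g z
      exact h3 g z
    · exfalso
      apply hφp
      rw [← h3, hlam]
  obtain ⟨e, he, he1⟩ := irr_deg_pos hφ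
  -- values
  have hoff : ∀ x : F, (x : X) ∉ Subgroup.center X → φ x = 0 := by
    intro x hx
    have hex : ∃ y ∈ F, (x : X) * y ≠ y * x := by
      by_contra hcon
      push Not at hcon
      exact hx (hF.cent x hcon)
    obtain ⟨y, hy, hxy⟩ := hex
    have hc : y * x * y⁻¹ * (x : X)⁻¹ ∈ Subgroup.center X := hF.comm y hy x x.2
    set c := y * x * y⁻¹ * (x : X)⁻¹ with hcd
    have hc1 : c ≠ 1 := by
      intro h
      apply hxy
      rw [hcd] at h
      have h4 : y * x * y⁻¹ = x := mul_inv_eq_one.mp h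
      exact (mul_inv_eq_iff_eq_mul.mp h4).symm
    have h4 : (⟨y, hy⟩ : F) * x * (⟨y, hy⟩ : F)⁻¹ = x * ⟨c, hZF hc⟩ := by
      apply Subtype.ext
      change y * x * y⁻¹ = x * c
      rw [Subgroup.mem_center_iff.mp hc x, hcd]
      group
    have h5 := Virt.conj (AddSubgroup.subset_closure hφ : Virt φ) x ⟨y, hy⟩
    rw [h4, hφω x ⟨c, hc⟩, hωpm ⟨c, hc⟩ (fun h => hc1 (congrArg Subtype.val h))] at h5
    linear_combination (-1 / 2 : ℂ) * h5
  have hon : ∀ x : F, ∀ hx : (x : X) ∈ Subgroup.center X, φ x = ((ω ⟨x, hx⟩ : ℂˣ) : ℂ) * e := by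
    intro x hx
    have h3 := hφω 1 ⟨x, hx⟩
    rw [one_mul, he1] at h3
    exact h3
  have hsumZ : ∀ f : F → ℂ, (∀ x : F, (x : X) ∉ Subgroup.center X → f x = 0) →
      ∑ x : F, f x = ∑ z : Subgroup.center X, f ⟨z, hZF z.2⟩ := by
    intro f hf
    symm
    refine Finset.sum_bij_ne_zero (fun z _ _ => ⟨z, hZF z.2⟩) (fun _ _ _ => Finset.mem_univ _) ?_ ?_ ?_
    · intro a _ _ b _ _ hab
      exact Subtype.ext (congrArg (fun y : F => (y : X)) hab)
    · intro x _ hx
      have hxZ : (x : X) ∈ Subgroup.center X := by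
        by_contra hcon
        exact hx (hf x hcon)
      exact ⟨⟨x, hxZ⟩, Finset.mem_univ _, hx, rfl⟩
    · intro z _ _
      rfl
  have hcardF : (Nat.card F : ℂ) = (D : ℂ) ^ 2 * 2 := by
    rw [hF.card, h2]
    push_cast
    ring
  have heD : e = D := by
    have h3 := pair_self hφ
    rw [hsumZ (fun x => φ x * φ x⁻¹) (fun x hx => by rw [hoff x hx, zero_mul])] at h3
    have h4 : ∀ z : Subgroup.center X, φ ⟨z, hZF z.2⟩ * φ (⟨z, hZF z.2⟩ : F)⁻¹ = (e : ℂ) ^ 2 := by
      intro z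
      have h5 : (⟨z, hZF z.2⟩ : F)⁻¹ = ⟨(z⁻¹ : Subgroup.center X), hZF (z⁻¹).2⟩ := rfl
      rw [h5, hon _ z.2, hon _ (z⁻¹).2]
      have h6 : ((ω z : ℂˣ) : ℂ) * ((ω z⁻¹ : ℂˣ) : ℂ) = 1 := by
        rw [← Units.val_mul, ← map_mul, mul_inv_cancel, map_one, Units.val_one]
      change ((ω z : ℂˣ) : ℂ) * e * (((ω z⁻¹ : ℂˣ) : ℂ) * e) = _
      linear_combination (e : ℂ) ^ 2 * h6
    rw [Finset.sum_congr rfl (fun z _ => h4 z), Finset.sum_const, Finset.card_univ,
      ← Nat.card_eq_fintype_card, h2, hcardF] at h3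
    have h5 : (e : ℂ) ^ 2 = (D : ℂ) ^ 2 := by
      have h6 : (2 : ℕ) • (e : ℂ) ^ 2 = 2 * (e : ℂ) ^ 2 := by simp
      rw [h6] at h3
      linear_combination (1 / 2 : ℂ) * h3
    have h6 : e ^ 2 = D ^ 2 := by exact_mod_cast h5
    exact Nat.pow_left_injective (n := 2) (by norm_num) h6
  subst heD
  have hreal : ∀ x : F, φ x⁻¹ = φ x := by
    intro x
    by_cases hx : (x : X) ∈ Subgroup.center X
    · have hx' : ((x⁻¹ : F) : X) ∈ Subgroup.center X := (Subgroup.center X).inv_mem hx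
      rw [hon x hx, hon x⁻¹ hx']
      have h5 : (⟨((x⁻¹ : F) : X), hx'⟩ : Subgroup.center X) = (⟨x, hx⟩ : Subgroup.center X)⁻¹ := rfl
      rw [h5, hωinv]
    · rw [hoff x hx, hoff x⁻¹ (fun h => hx (by simpa using (Subgroup.center X).inv_mem h))]
  -- the Frobenius-Schur sum
  have hsq : ∀ x : F, φ (x ^ 2) = if x ^ 2 = 1 then (e : ℂ) else -e := by
    intro x
    have hx := sq_mem hF h2 x x.2
    have hx' : ((x ^ 2 : F) : X) ∈ Subgroup.center X := hx
    rw [hon (x ^ 2) hx']
    by_cases h3 : x ^ 2 = 1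
    · rw [if_pos h3]
      have h4 : (⟨((x ^ 2 : F) : X), hx'⟩ : Subgroup.center X) = 1 := by
        apply Subtype.ext
        change ((x ^ 2 : F) : X) = 1
        rw [h3]
        rfl
      rw [h4, map_one, Units.val_one, one_mul]
    · rw [if_neg h3, hωpm _ (fun h => h3 (Subtype.ext (show ((x ^ 2 : F) : X) = 1 from
        congrArg Subtype.val h)))]
      ring
  have hFS : ∑ x : F, φ (x ^ 2) = e * (2 * (Nat.card {x : F // x ^ 2 = 1} : ℂ) - Nat.card F) := by
    rw [Finset.sum_congr rfl (fun x _ => hsq x), Finset.sum_ite, Finset.sum_const, Finset.sum_const]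
    have h3 : (Finset.univ.filter fun x : F => x ^ 2 = 1).card = Nat.card {x : F // x ^ 2 = 1} := by
      rw [Nat.card_eq_fintype_card, Fintype.card_subtype]
    have h4 : (Finset.univ.filter fun x : F => x ^ 2 = 1).card +
        (Finset.univ.filter fun x : F => ¬ x ^ 2 = 1).card = Nat.card F := by
      rw [Finset.card_filter_add_card_filter_not, Finset.card_univ, Nat.card_eq_fintype_card]
    rw [← h3, ← h4]
    simp only [nsmul_eq_mul]
    push_cast
    ring
  have hsy : Sy φ := by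
    refine ⟨hreal, ?_⟩
    obtain ⟨ν, h3, h4⟩ := nu_exists hφ
    rcases h4 with ⟨h4, -, -⟩ | ⟨h4, -⟩ | ⟨-, g, hg⟩
    · exfalso
      apply hn
      rw [h4, finsum_eq_sum_of_fintype, hFS, hcardF] at h3
      unfold PlusType
      have h5 : (2 : ℂ) * (Nat.card {x : F // x ^ 2 = 1} : ℂ) = (Nat.card F : ℂ) + 2 * e := by
        apply mul_left_cancel₀ hD0
        rw [hcardF]
        push_cast at h3
        linear_combination h3
      exact_mod_cast h5
    · rw [h3, h4]
      push_cast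
      ring
    · exact absurd (hreal g) hg
  obtain ⟨k, hk⟩ := hE F F.subtype φ hφ hsy
  refine ⟨k, ?_⟩
  have h3 : (Nat.card F : ℂ) * pr (fun x : F => θ x) φ = e * (2 * a) := by
    rw [pr_eq, ← mul_assoc, mul_inv_cancel₀ card_ne, one_mul]
    rw [hsumZ (fun x => θ x * φ x⁻¹) (fun x hx => by rw [hreal, hoff x hx, mul_zero])]
    rw [← ha, lam_eq, h2]
    have h6 : (2 : ℂ) * (((2 : ℕ) : ℂ)⁻¹ * ∑ z : Subgroup.center X,
          θ (1 * z) * (((ω z)⁻¹ : ℂˣ) : ℂ)) =
        ∑ z : Subgroup.center X, θ (1 * z) * (((ω z)⁻¹ : ℂˣ) : ℂ) := by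
      rw [← mul_assoc]
      norm_num
    rw [h6, Finset.mul_sum, Finset.sum_congr rfl]
    intro z _
    rw [hreal, hon _ z.2, one_mul]
    have h5 : (((ω z)⁻¹ : ℂˣ) : ℂ) = ((ω z : ℂˣ) : ℂ) := by
      rw [← map_inv, hωinv]
    rw [h5]
    change θ z * (((ω z : ℂˣ) : ℂ) * e) = _
    ring
  have hk' : pr (fun x : F => θ x) φ = 2 * k := hk
  rw [hk', hcardF] at h3
  have h4 : (a : ℂ) = 2 * k * e := by
    have h5 : (2 : ℂ) * e ≠ 0 := mul_ne_zero two_ne_zero hD0
    apply mul_left_cancel₀ h5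
    linear_combination -h3
  exact_mod_cast h4

end Pool.Agent.Q7.CS
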