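import Mathlib
import Pool.Agent.Q7.CS.Par

/-!
# Central points: solvable groups
-/

set_option autoImplicit false
set_option linter.unusedSectionVars false

namespace Pool.Agent.Q7.CS

open Pool.Agent.H302R2 Pool.Agent.H541R3.ART Pool.Agent.W446.AS Pool.Agent.H302R5
  Pool.Agent.H302R6 Pool.Agent.Q7.TZ Pool.Agent.Q7.DB

/-- The obstruction for the degree `r` at a central point: `X` has a frame `F` of degree `D` such that
`4 D ≤ r`, or `2 D ≤ r` and `X / F` is cyclic, or the centre of `X` has order two and `2 D ≤ r`, or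
the centre of `X` has order two, `D ≤ r`, `X / F` is cyclic and `F` is of plus type; and `D ≠ 2` if
`lt` holds. -/
def CObs (lt : Prop) (r : ℕ) (X : Type) [Group X] : Prop :=
  ∃ (F : Subgroup X) (D : ℕ), Frame X F D ∧ (lt → D ≠ 2) ∧
    ((4 * D ≤ r ∨ (2 * D ≤ r ∧ ∃ g, F ⊔ Subgroup.zpowers g = ⊤)) ∨
      (Nat.card (Subgroup.center X) = 2 ∧
        (2 * D ≤ r ∨ (D ≤ r ∧ (∃ g, F ⊔ Subgroup.zpowers g = ⊤) ∧ PlusType F D))))

/-- No section of `G` (quotient of a subgroup) has an obstruction. -/
def CFree (lt : Prop) (r : ℕ) (G : Type) [Group G] : Prop :=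
  ∀ (H : Subgroup G) (X : Type) [Group X] (f : H →* X), Function.Surjective f →
    ¬ CObs lt r X

lemma CFree.sub {lt : Prop} {r : ℕ} {G : Type} [Group G] (h : CFree lt r G)
    (K : Subgroup G) : CFree lt r K := by
  intro H X _ f hf
  let e : H.map K.subtype ≃* H := (H.equivMapOfInjective K.subtype K.subtype_injective).symm
  exact h (H.map K.subtype) X (f.comp e.toMonoidHom) (hf.comp e.surjective)

lemma CFree.quot {lt : Prop} {r : ℕ} {G : Type} [Group G] (h : CFree lt r G)
    {Y : Type} [Group Y] (π : G →* Y) (hπ : Function.Surjective π) : CFree lt r Y := by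
  intro H X _ f hf
  let q : H.comap π →* H :=
    { toFun := fun u => ⟨π u, u.2⟩
      map_one' := Subtype.ext (map_one π)
      map_mul' := fun a b => Subtype.ext (map_mul π _ _) }
  refine h (H.comap π) X (f.comp q) (hf.comp ?_)
  rintro ⟨y, hy⟩
  obtain ⟨g, rfl⟩ := hπ y
  exact ⟨⟨g, hy⟩, rfl⟩

lemma CFree.self {lt : Prop} {r : ℕ} {G : Type} [Group G] (h : CFree lt r G) :
    ¬ CObs lt r G :=
  h ⊤ G (⊤ : Subgroup G).subtype (fun x => ⟨⟨x, Subgroup.mem_top x⟩, rfl⟩)

theorem cmain (lt : Prop) (r : ℕ) : ∀ (N : ℕ) (G : Type) [Group G] [Finite G], Nat.card G = N →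
    Group.IsSolvable G → CFree lt r G → ∀ θ : G → ℂ, IsHeilbronn θ → Virt θ →
    (∀ g, θ g⁻¹ = θ g) → EvS θ →
    (∃ a : ℕ, a ≤ r ∧ θ 1 = a) → (lt → TwoPos θ) → ∀ χ ∈ Irr G, ∃ k : ℕ, pr θ χ = k := by
  classical
  intro N
  induction N using Nat.strong_induction_on with
  | _ N ih =>
  intro G _ _ hN hsol hun θ hθ hvirt hreal hE2 hdeg hlt χ hχ
  have : Fintype G := Fintype.ofFinite G
  obtain ⟨m, ρ, hρ, rfl⟩ := exists_rep hχ
  obtain ⟨s, hsr, hs⟩ := hdeg
  -- the kernel
  by_cases hfaith : ∀ g, ρ g = 1 → g = 1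
  swap
  · push Not at hfaith
    obtain ⟨g, hg, hg1⟩ := hfaith
    let Nk : Subgroup G := MonoidHom.ker ρ
    let π : G →* G ⧸ Nk := QuotientGroup.mk' Nk
    have hπ : Function.Surjective π := QuotientGroup.mk'_surjective Nk
    have hker : π.ker = Nk := QuotientGroup.ker_mk' Nk
    obtain ⟨ψ, hψ, h1⟩ := descend_irr hπ hρ (by
      intro x hx
      rw [hker] at hx
      exact hx)
    have hcard : Nat.card (G ⧸ Nk) < N := by
      rw [← hN, Subgroup.card_eq_card_quotient_mul_card_subgroup Nk]
      have h2 : 1 < Nat.card Nk := by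
        have : Nontrivial Nk := ⟨⟨g, hg⟩, 1, fun h => hg1 (congrArg Subtype.val h)⟩
        exact Finite.one_lt_card
      have h3 : 0 < Nat.card (G ⧸ Nk) := Nat.card_pos
      nlinarith
    obtain ⟨k, hk⟩ := ih _ hcard (G ⧸ Nk) rfl inferInstance (hun.quot π hπ) (push π θ)
      (push_isHeilbronn hπ hθ) (Virt.push hπ hvirt) (push_real π hreal) (hE2.push hπ) (by
        obtain ⟨r', h2, h3⟩ := push_one_nat_le hπ hθ hs
        exact ⟨r', h2.trans hsr, h3⟩) (fun h => (hlt h).push hπ) ψ hψ
    refine ⟨k, ?_⟩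
    rw [← hk, pr_push hπ]
    congr 1
    funext g
    exact h1 g
  -- Clifford
  by_cases hab : ∀ A : Subgroup G, A.Normal → (∀ a ∈ A, ∀ b ∈ A, a * b = b * a) →
      A ≤ Subgroup.center G
  swap
  · push Not at hab
    obtain ⟨A, hAn, hAc, hA⟩ := hab
    obtain ⟨H, hH, ψ, hψ, h1⟩ := clifford hρ hfaith A
      (fun a b => Subtype.ext (hAc a a.2 b b.2)) hA
    have hcard : Nat.card H < N := by
      rw [← hN]
      refine lt_of_le_of_ne (Subgroup.card_le_card_group H) fun h2 => hH ?_
      exact Subgroup.eq_top_of_card_eq H h2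
    obtain ⟨k, hk⟩ := ih _ hcard H rfl inferInstance (hun.sub H) (fun x => θ x)
      (hθ.comp H.subtype) (hvirt.comp H.subtype) (fun g => hreal g) (hE2.comp H.subtype)
      ⟨s, hsr, by simpa using hs⟩
      (fun h => (hlt h).comp H.subtype) ψ hψ
    obtain ⟨a, b, ha, hb, hab⟩ := h1 θ hθ.conj
    obtain ⟨l, hl⟩ := hvirt.pr_int hχ
    rw [hl, hk] at hab
    have h2 : (a : ℤ) * l = b * k := by exact_mod_cast hab
    have h3 : 0 ≤ l := by
      by_contra hcon
      push Not at hcon
      have h4 : (0 : ℤ) < a := by exact_mod_cast ha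
      have h5 : (0 : ℤ) ≤ b * k := by positivity
      nlinarith
    obtain ⟨l', hl'⟩ := Int.eq_ofNat_of_zero_le h3
    exact ⟨l', by rw [hl, hl']; simp⟩
  -- all abelian normal subgroups are central
  by_cases hZ : Subgroup.center G = ⊤
  · exact abelian_case hZ hθ hχ
  have hn := hρ.1
  obtain ⟨v₀, hv₀⟩ := exists_ne (0 : Fin m → ℂ)
  obtain ⟨ω, hω⟩ := hρ.central
  have hωi : Function.Injective ω := by
    rw [injective_iff_map_eq_one]
    intro z hz
    apply Subtype.ext
    apply hfaith
    refine LinearMap.ext fun v => ?_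
    rw [hω z v, hz, Units.val_one, one_smul, Module.End.one_apply]
  have hχω : ∀ (g : G) (z : Subgroup.center G),
      ρ.character (g * z) = ((ω z : ℂˣ) : ℂ) * ρ.character g := by
    intro g z
    have h1 : ρ (g * z) = ((ω z : ℂˣ) : ℂ) • ρ g := by
      refine LinearMap.ext fun v => ?_
      rw [map_mul, Module.End.mul_apply, hω, map_smul, LinearMap.smul_apply]
    change LinearMap.trace ℂ _ (ρ (g * z)) = _ * LinearMap.trace ℂ _ (ρ g)
    rw [h1, map_smul, smul_eq_mul]
  obtain ⟨E, D, hE⟩ := exists_frame hab ω hωi hZ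
  obtain ⟨d, hd, hdcard, hdiv⟩ := ext_sub hE.le hE.comm (fun x _ hx => hE.cent x hx) ω hωi
  have hZpos : 0 < Nat.card (Subgroup.center G) := Nat.card_pos
  have hdp : d = D := by
    have h1 : d ^ 2 = D ^ 2 := by
      apply Nat.eq_of_mul_eq_mul_right hZpos
      rw [hdcard, hE.card]
    exact Nat.pow_left_injective (n := 2) (by norm_num) h1
  let τ : G → ℂ := lam (Subgroup.center G) ω θ
  have hτH : IsHeilbronn τ := lam_heilbronn le_rfl hθ
  have hτV : Virt τ := hvirt.lam le_rfl
  have hτpr : pr τ ρ.character = pr θ ρ.character := pr_lam hvirt le_rfl hχ hχω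
  obtain ⟨a, har, ha⟩ := lam_one_le (μ := ω) le_rfl hθ hs
  have ha' : τ 1 = a := ha
  obtain ⟨k, hk⟩ := hdiv G E.subtype τ hτH (by
    intro g z
    exact lam_mul (g : G) z)
  have hak : a = k * d := by
    rw [ha'] at hk
    exact_mod_cast hk
  -- the degree of the part
  have hcases : Nat.card (Subgroup.center G) = 2 ∨ 2 * a ≤ r := by
    by_cases hωω : ω = ω⁻¹
    · left
      have h2 : ∀ z : Subgroup.center G, z ^ 2 = 1 := by
        intro z
        apply hωi
        rw [map_pow, map_one, pow_two]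
        have h3 := DFunLike.congr_fun hωω z
        rw [MonoidHom.inv_apply] at h3
        nth_rw 2 [h3]
        exact mul_inv_cancel _
      have hcyc := hE.cyc
      obtain ⟨z, hz⟩ := hcyc.exists_generator
      have h4 : Nat.card (Subgroup.center G) = orderOf z := (orderOf_eq_card_of_forall_mem_zpowers hz).symm
      have h5 : orderOf z ∣ 2 := orderOf_dvd_of_pow_eq_one (h2 z)
      rw [← h4] at h5
      rcases (Nat.dvd_prime Nat.prime_two).mp h5 with h6 | h6
      · exfalso
        have hZ1 : Subgroup.center G = ⊥ := Subgroup.card_eq_one.mp h6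
        have h7 : E ≤ Subgroup.center G := by
          refine hE.abel E hE.normal fun x hx y hy => ?_
          have h8 := hE.comm x hx y hy
          rw [hZ1, Subgroup.mem_bot] at h8
          have h9 : x * y * x⁻¹ = y := mul_inv_eq_one.mp h8
          exact mul_inv_eq_iff_eq_mul.mp h9
        have h8 : Nat.card E ≤ 1 := by
          rw [← h6]
          exact Nat.le_of_dvd hZpos (Subgroup.card_dvd_of_le h7)
        rw [hE.card, h6, mul_one] at h8
        have := hE.one_lt
        nlinarith
      · exact h6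
    · right
      exact (two_part hθ hreal hs hωω ha).trans hsr
  rw [← hτpr]
  by_cases ha0 : a = 0
  · refine ⟨0, ?_⟩
    have h1 : τ = 0 := by
      funext g
      have h2 := hτH.norm_le g
      rw [ha', ha0] at h2
      simpa using h2
    rw [h1, pr_zero_left]
    simp
  have hk0 : 0 < k := by
    rcases Nat.eq_zero_or_pos k with h | h
    · rw [h, zero_mul] at hak; exact absurd hak ha0
    · exact h
  have hobs := hun.self
  have hda : d ≤ a := by nlinarith
  have hdr : d ≤ r := hda.trans (har.trans hsr)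
  by_cases hl2 : lt ∧ D = 2
  · obtain ⟨hl, hD2⟩ := hl2
    rw [hτpr]
    rw [hD2] at hE
    rcases two_frame hE hχ hωi hχω with h3 | ⟨R, hR, hR0⟩
    · obtain ⟨k, hk⟩ := hlt hl G (MonoidHom.id G) _ hχ h3
      exact ⟨k, hk⟩
    · -- support in a proper subgroup
      have hcard : Nat.card R < N := by
        rw [← hN]
        refine lt_of_le_of_ne (Subgroup.card_le_card_group R) fun h2 => hR ?_
        exact Subgroup.eq_top_of_card_eq R h2
      have hpos := ih _ hcard R rfl inferInstance (hun.sub R) (fun x => θ x)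
        (hθ.comp R.subtype) (hvirt.comp R.subtype) (fun g => hreal g) (hE2.comp R.subtype)
        ⟨s, hsr, by simpa using hs⟩
        (fun h => (hlt h).comp R.subtype)
      obtain ⟨l, hl'⟩ := hvirt.pr_int hχ
      have h4 := pr_support hvirt hχ R hR0 hpos
      obtain ⟨j, hj⟩ := h4
      have h5 : (0 : ℤ) ≤ l := by
        rw [hl'] at hj
        have h6 : (Nat.card G : ℤ) * l = j := by exact_mod_cast hj
        have h7 : (0 : ℤ) < Nat.card G := by exact_mod_cast Nat.card_pos
        by_contra hcon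
        push Not at hcon
        have h8 : (0 : ℤ) ≤ j := by positivity
        nlinarith
      obtain ⟨l', hl''⟩ := Int.eq_ofNat_of_zero_le h5
      exact ⟨l', by rw [hl', hl'']; simp⟩
  have hlD : lt → D ≠ 2 := fun h1 h2 => hl2 ⟨h1, h2⟩
  have hk1 : k = 1 := by
    by_contra h
    have h1 : 2 ≤ k := by omega
    have h2 : 2 * d ≤ a := by nlinarith
    apply hobs
    refine ⟨E, D, hE, hlD, ?_⟩
    rw [← hdp]
    rcases hcases with h3 | h3
    · exact Or.inr ⟨h3, Or.inl (h2.trans (har.trans hsr))⟩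
    · exact Or.inl (Or.inl (by omega))
  have had : τ 1 = d := by rw [ha', hak, hk1, one_mul]
  have hcyc : ¬ ∃ g, E ⊔ Subgroup.zpowers g = ⊤ := fun h => by
    apply hobs
    refine ⟨E, D, hE, hlD, ?_⟩
    rw [← hdp]
    rcases hcases with h3 | h3
    · refine Or.inr ⟨h3, Or.inr ⟨hdr, h, ?_⟩⟩
      by_contra hcon
      obtain ⟨j, hj⟩ := parity_frame hE h3 hωi hE2 hχ hχω (by rwa [hdp] at hcon) ha
      rw [hak, hk1, one_mul, hdp] at hj
      have h5 := hE.one_lt
      have h6 : (D : ℤ) * (1 - 2 * j) = 0 := by linear_combination hj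
      rcases mul_eq_zero.mp h6 with h7 | h7
      · omega
      · omega
    · exact Or.inl (Or.inr ⟨by omega, h⟩)
  push Not at hcyc
  -- the norms on the subgroups `E ⊔ ⟨g⟩`
  refine final hτV had ?_ _ hχ
  let c : G → Subgroup G := fun g => E ⊔ Subgroup.zpowers g
  have hcm : ∀ x, x ∈ c x := fun x => Subgroup.mem_sup_right (Subgroup.mem_zpowers x)
  have hmono : ∀ x y, x ∈ c y → c x ≤ c y := by
    intro x y hx
    refine sup_le le_sup_left ?_
    rw [Subgroup.zpowers_le]
    exact hx
  have hsum := mobius c hcm hmono (fun x => τ x * τ x⁻¹ - 1) (by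
    intro y
    have : Fintype (c y) := Fintype.ofFinite _
    have hZK : Subgroup.center G ≤ c y := hE.le.trans le_sup_left
    have hcard : Nat.card (c y) < N := by
      rw [← hN]
      refine lt_of_le_of_ne (Subgroup.card_le_card_group _) fun h2 => hcyc y ?_
      exact Subgroup.eq_top_of_card_eq _ h2
    have hpos := ih _ hcard (c y) rfl inferInstance (hun.sub _) (fun x => θ x)
      (hθ.comp (c y).subtype) (hvirt.comp (c y).subtype) (fun g => hreal g) (hE2.comp (c y).subtype)
      ⟨s, hsr, by simpa using hs⟩ (fun h => (hlt h).comp (c y).subtype)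
    have h1 := norm_one (G := c y) (τ := fun x => τ x) (hτV.comp (c y).subtype) hd
      (by simpa using had) (by
        intro ψ hψ
        rcases pr_restrict (μ := ω) le_rfl hvirt hZK hψ with ⟨h2, -⟩ | h2
        · obtain ⟨k, hk⟩ := hpos ψ hψ
          exact ⟨k, by rw [← hk]; exact h2⟩
        · exact ⟨0, by rw [Nat.cast_zero]; exact h2⟩) (by
        intro ψ hψ hne
        rcases pr_restrict (μ := ω) le_rfl hvirt hZK hψ with ⟨-, h2⟩ | h2
        · exact hdiv (c y) (Subgroup.inclusion le_sup_left) ψ (irr_heilbronn hψ) (by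
            intro g z
            exact h2 (Subgroup.inclusion le_sup_left g) z)
        · exact absurd h2 hne)
    rw [pr_eq] at h1
    rw [finsum_eq_sum_of_fintype, Finset.sum_sub_distrib, Finset.sum_const, Finset.card_univ,
      ← Nat.card_eq_fintype_card, nsmul_eq_mul, mul_one]
    have h3 : (Nat.card (c y) : ℂ) ≠ 0 := card_ne
    have h4 : ∑ g : c y, τ g * τ (g : G)⁻¹ = Nat.card (c y) := by
      have h5 := congrArg (fun z => (Nat.card (c y) : ℂ) * z) h1
      simp only [mul_one] at h5
      rw [← mul_assoc, mul_inv_cancel₀ h3, one_mul] at h5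
      exact h5
    rw [h4, sub_self])
  rw [Finset.sum_sub_distrib, Finset.sum_const, Finset.card_univ, ← Nat.card_eq_fintype_card,
    nsmul_eq_mul, mul_one] at hsum
  rw [pr_eq, sub_eq_zero.mp hsum, inv_mul_cancel₀ card_ne]

end Pool.Agent.Q7.CS
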