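import Mathlib
import Pool.Agent.Q7.CS.Main

/-!
# Central points: arithmetic conditions
-/

set_option autoImplicit false
set_option linter.unusedSectionVars false

namespace Pool.Agent.Q7.CS

open Pool.Agent.H302R2 Pool.Agent.H541R3.ART Pool.Agent.W446.AS Pool.Agent.Q7.DB

/-- degree four, centre of order two, plus type: the quotient is not cyclic -/
theorem plus_four {X : Type} [Group X] [Finite X] {F : Subgroup X} (hF : Frame X F 4)
    (h2 : Nat.card (Subgroup.center X) = 2) {g : X} (hg : F ⊔ Subgroup.zpowers g = ⊤)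
    (hP : PlusType F 4) : False := by
  classical
  have : Fintype X := Fintype.ofFinite X
  obtain ⟨hC, h5⟩ := four_cyc hF hg
  have hn := hF.normal
  have hZ : ∀ z ∈ Subgroup.center X, z ^ 2 = 1 := by
    intro z hz
    have h3 : (⟨z, hz⟩ : Subgroup.center X) ^ Nat.card (Subgroup.center X) = 1 := pow_card_eq_one'
    rw [h2] at h3
    exact congrArg Subtype.val h3
  -- an element of order five
  have h5X : 5 ∣ Nat.card X := h5.trans (Subgroup.index_dvd_card F)
  have : Fact (Nat.Prime 5) := ⟨by norm_num⟩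
  obtain ⟨y, hy⟩ := exists_prime_orderOf_dvd_card' (G := X) 5 h5X
  have hy5 : y ^ 5 = 1 := by rw [← hy]; exact pow_orderOf_eq_one y
  have hy1 : y ≠ 1 := by
    intro h
    rw [h, orderOf_one] at hy
    norm_num at hy
  -- conjugation by `y` modulo the centre
  have hyc : ∀ z ∈ Subgroup.center X, ∀ x : X, x * z = z * x := fun z hz x =>
    Subgroup.mem_center_iff.mp hz x
  have hmul : ∀ x x' : X, y * (x * x') * y⁻¹ * (x * x')⁻¹ =
      (y * x * y⁻¹ * x⁻¹) * (x * (y * x' * y⁻¹ * x'⁻¹) * x⁻¹) := by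
    intro x x'
    group
  let C : Subgroup X :=
    { carrier := {x | x ∈ F ∧ y * x * y⁻¹ * x⁻¹ ∈ Subgroup.center X}
      mul_mem' := by
        rintro a b ⟨ha, ha'⟩ ⟨hb, hb'⟩
        refine ⟨F.mul_mem ha hb, ?_⟩
        rw [hmul]
        exact mul_mem ha' ((inferInstance : (Subgroup.center X).Normal).conj_mem _ hb' a)
      one_mem' := by
        refine ⟨F.one_mem, ?_⟩
        simp
      inv_mem' := by
        rintro a ⟨ha, ha'⟩
        refine ⟨F.inv_mem ha, ?_⟩
        have h3 : y * a⁻¹ * y⁻¹ * a⁻¹⁻¹ = (a⁻¹ * (y * a * y⁻¹ * a⁻¹) * a⁻¹⁻¹)⁻¹ := by group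
        rw [h3]
        exact inv_mem ((inferInstance : (Subgroup.center X).Normal).conj_mem _ ha' a⁻¹) }
  have hCF : C ≤ F := fun x hx => hx.1
  have hZC : Subgroup.center X ≤ C := by
    intro z hz
    refine ⟨hF.le hz, ?_⟩
    rw [hyc z hz y, mul_assoc, mul_assoc, mul_inv_cancel_left]
    rw [mul_inv_cancel]
    exact one_mem _
  -- `X` acts on `F / Z` through an abelian group
  have hcomm : ∀ a b : X, a * b * a⁻¹ * b⁻¹ ∈ F := by
    intro a b
    have hab : ∀ x : X ⧸ F, ∃ n : ℤ, x = (QuotientGroup.mk g : X ⧸ F) ^ n := by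
      intro x
      obtain ⟨x, rfl⟩ := QuotientGroup.mk_surjective x
      have hx : x ∈ F ⊔ Subgroup.zpowers g := by rw [hg]; exact Subgroup.mem_top x
      obtain ⟨f, hf, w, ⟨n, rfl⟩, hfw⟩ := Subgroup.mem_sup_of_normal_left.mp hx
      refine ⟨n, ?_⟩
      rw [← hfw, ← QuotientGroup.mk_zpow]
      rw [QuotientGroup.mk_mul, (QuotientGroup.eq_one_iff f).mpr hf, one_mul]
    rw [← QuotientGroup.eq_one_iff]
    obtain ⟨m, hm⟩ := hab a
    obtain ⟨n, hn'⟩ := hab b
    rw [QuotientGroup.mk_mul, QuotientGroup.mk_mul, QuotientGroup.mk_mul, QuotientGroup.mk_inv,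
      QuotientGroup.mk_inv, hm, hn']
    group
  have hCn : C.Normal := by
    constructor
    rintro x ⟨hx, hx'⟩ a
    refine ⟨hn.conj_mem x hx a, ?_⟩
    -- `y a = a y f`
    set f := y⁻¹ * a⁻¹ * y * a with hfdef
    have hf : f ∈ F := by
      have := hcomm y⁻¹ a⁻¹
      rwa [inv_inv, inv_inv] at this
    have hya : y * a = a * y * f := by rw [hfdef]; group
    have h3 : y * (a * x * a⁻¹) * y⁻¹ * (a * x * a⁻¹)⁻¹ =
        a * ((y * (f * x * f⁻¹ * x⁻¹) * y⁻¹) * (y * x * y⁻¹ * x⁻¹)) * a⁻¹ := by
      calc y * (a * x * a⁻¹) * y⁻¹ * (a * x * a⁻¹)⁻¹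
          = (y * a) * x * (y * a)⁻¹ * (a * x * a⁻¹)⁻¹ := by group
        _ = (a * y * f) * x * (a * y * f)⁻¹ * (a * x * a⁻¹)⁻¹ := by rw [hya]
        _ = _ := by group
    rw [h3]
    apply (inferInstance : (Subgroup.center X).Normal).conj_mem
    apply mul_mem _ hx'
    apply (inferInstance : (Subgroup.center X).Normal).conj_mem
    exact hF.comm f hf x hx
  rcases hC.chief C hCn hZC hCF with hCZ | hCF'
  · -- no fixed points
    let S := {x : X // x ∈ F ∧ x ∉ Subgroup.center X ∧ x ^ 2 = 1}
    let φ : Function.End S := fun x => ⟨y * x * y⁻¹, hn.conj_mem _ x.2.1 y, by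
      intro h
      apply x.2.2.1
      have h3 := (inferInstance : (Subgroup.center X).Normal).conj_mem _ h y⁻¹
      have h4 : y⁻¹ * (y * (x : X) * y⁻¹) * y⁻¹⁻¹ = x := by group
      rwa [h4] at h3, by
      have h3 : (y * (x : X) * y⁻¹) ^ 2 = y * (x : X) ^ 2 * y⁻¹ := by
        rw [conj_pow]
      rw [h3, x.2.2.2]
      group⟩
    have hφn : ∀ (n : ℕ) (x : S), (((φ ^ n) x : S) : X) = y ^ n * x * (y ^ n)⁻¹ := by
      intro n
      induction n with
      | zero =>
        intro x
        change (x : X) = _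
        rw [pow_zero, one_mul, inv_one, mul_one]
      | succ n ih =>
        intro x
        rw [pow_succ']
        change y * (((φ ^ n) x : S) : X) * y⁻¹ = _
        rw [ih, pow_succ']
        group
    have h4 : φ ^ 5 ^ 1 = 1 := by
      funext x
      apply Subtype.ext
      rw [pow_one, hφn, hy5, one_mul, inv_one, mul_one]
      rfl
    have h6 := Equiv.Perm.card_fixedPoints_modEq (p := 5) h4
    have h7 : Fintype.card (Function.fixedPoints φ) = 0 := by
      rw [Fintype.card_eq_zero_iff]
      refine ⟨fun x => ?_⟩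
      have h8 : φ x = x := x.2
      have h9 : y * ((x : S) : X) * y⁻¹ = ((x : S) : X) := congrArg Subtype.val h8
      apply (x : S).2.2.1
      refine hCZ.le ⟨(x : S).2.1, ?_⟩
      rw [h9, mul_inv_cancel]
      exact one_mem _
    have h8 : Fintype.card S = 18 := by
      have h9 : 2 * Nat.card {x : F // x ^ 2 = 1} = Nat.card F + 2 * 4 := hP
      rw [hF.card, h2] at h9
      have h10 : Nat.card {x : F // x ^ 2 = 1} = Nat.card S + Nat.card (Subgroup.center X) := by
        rw [← Nat.card_sum]
        refine Nat.card_congr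
          { toFun := fun x => if h : (x : F).1 ∈ Subgroup.center X then Sum.inr ⟨(x : F).1, h⟩ else
              Sum.inl ⟨(x : F).1, (x : F).2, h, congrArg Subtype.val x.2⟩
            invFun := fun x => x.elim (fun a => ⟨⟨a.1, a.2.1⟩, Subtype.ext a.2.2.2⟩)
              (fun a => ⟨⟨a.1, hF.le a.2⟩, Subtype.ext (hZ _ a.2)⟩)
            left_inv := ?_
            right_inv := ?_ }
        · intro x
          by_cases h : (x : F).1 ∈ Subgroup.center X
          · simp only [dif_pos h, Sum.elim_inr]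
          · simp only [dif_neg h, Sum.elim_inl]
        · rintro (a | a)
          · simp only [Sum.elim_inl, dif_neg a.2.2.1]
            rfl
          · simp only [Sum.elim_inr, dif_pos a.2]
      rw [h10, h2] at h9
      rw [← Nat.card_eq_fintype_card]
      omega
    rw [h7, h8] at h6
    revert h6
    decide
  · -- a central square
    have hc2 : ∀ x ∈ F, y ^ 2 * x = x * y ^ 2 := by
      intro x hx
      have h3 : x ∈ C := by rw [hCF']; exact hx
      set c := y * x * y⁻¹ * x⁻¹ with hc
      have hcZ : c ∈ Subgroup.center X := h3.2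
      have h4 : y * x = c * x * y := by rw [hc]; group
      calc y ^ 2 * x = y * (y * x) := by rw [pow_two, mul_assoc]
        _ = (y * c) * x * y := by rw [h4]; group
        _ = c * (y * x) * y := by rw [hyc c hcZ y]; group
        _ = c ^ 2 * x * y ^ 2 := by rw [h4]; simp only [pow_two, mul_assoc]
        _ = x * y ^ 2 := by rw [hZ c hcZ, one_mul]
    have h3 : y ^ 2 ∈ Subgroup.center X := hF.cent _ hc2
    have h4 := hZ _ h3
    apply hy1
    calc y = y ^ 5 * ((y ^ 2) ^ 2)⁻¹ := by group
      _ = 1 := by rw [hy5, h4]; group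

/-- degree at most seven with the two-dimensional case known -/
theorem cfree_seven {G : Type} [Group G] [Finite G] {r : ℕ} (hr : r ≤ 7)
    (h108 : 6 ≤ r → ¬ 108 ∣ Nat.card G) : CFree True r G := by
  rintro H X _ f hf ⟨F, D, hF, hD2, hobs⟩
  have hXfin : Finite X := Finite.of_surjective f hf
  have hXG : Nat.card X ∣ Nat.card G :=
    (Subgroup.card_dvd_of_surjective f hf).trans (Subgroup.card_subgroup_dvd_card H)
  have hD2 := hD2 trivial
  have hD := hF.one_lt
  have hdvd : ∀ k m : ℕ, k ∣ F.index → m ∣ Nat.card F → k * m ∣ Nat.card G := by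
    intro k m hk hm
    refine dvd_trans ?_ hXG
    rw [← Subgroup.index_mul_card F]
    exact mul_dvd_mul hk hm
  rcases hobs with (h | ⟨h, -⟩) | ⟨hZ, h⟩
  · omega
  · have h3 : D = 3 := by omega
    subst h3
    exact h108 (by omega) (hdvd 4 27 (three_index hF) (hF.crit_of_prime Nat.prime_three).dvd_card)
  · obtain ⟨j, rfl⟩ := two_center hF hZ
    have hj : j = 2 := by
      have h7 : 2 ^ j ≤ 7 := by
        rcases h with h | ⟨h, -⟩ <;> omega
      have h8 : j < 3 := by
        by_contra hcon
        push Not at hcon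
        have : (2 : ℕ) ^ 3 ≤ 2 ^ j := Nat.pow_le_pow_right (by norm_num) hcon
        omega
      interval_cases j
      · norm_num at hD
      · norm_num at hD2
      · rfl
    subst hj
    rcases h with h | ⟨h, ⟨g, hg⟩, hP⟩
    · omega
    · have hF' : Frame X F 4 := hF
      exact plus_four hF' hZ hg hP

end Pool.Agent.Q7.CS
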