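import Mathlib
import Pool.Agent.W446.AS.FArt
import Pool.Agent.Q7.DB.RealArt
import Pool.Agent.Q7.SZ.Ell
import Pool.Agent.Q7.CS.Num

/-!
# Central points: L-functions
-/

set_option autoImplicit false
set_option linter.unusedSectionVars false

namespace Pool.Agent.Q7.CS

open Pool.Agent.H302R2 Pool.Agent.H541R3.ART Pool.Agent.W446.AS Pool.Agent.H302R5
  Pool.Agent.H302R6 Pool.Agent.Q7.TZ Pool.Agent.Q7.DB Filter Topology ComplexConjugate

/-- The functional equation at the centre `s = 1` of the L-functions of the symplectic irreducible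
characters `ψ` of the subgroups `H` of `G` (base field `M ^ H`): `gam H ψ` is the factor
`N ^ (s / 2) Γ(s)` of the completed L-function; the root number is `1`. -/
structure SympEq {G : Type} [Group G] (A : ArtinData G 1) where
  symp : (H : Subgroup G) → (H → ℂ) → ℂ → ℂ
  gam : (H : Subgroup G) → (H → ℂ) → ℂ → ℂ
  gam_an : ∀ (H : Subgroup G), ∀ ψ ∈ Irr H, Sy ψ → AnalyticAt ℂ (gam H ψ) 1 ∧ gam H ψ 1 ≠ 0
  /-- `Λ(ψ, s) = Λ(ψ, 2 - s)` -/
  fe : ∀ (H : Subgroup G), ∀ ψ ∈ Irr H, Sy ψ → (fun s => gam H ψ s * symp H ψ s) =ᶠ[𝓝[≠] 1]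
    fun s => gam H ψ (2 - s) * symp H ψ (2 - s)
  /-- induction: `symp H ψ` is the product of the `L χ ^ ⟨χ|_H, ψ⟩` -/
  induce : ∀ (H : Subgroup G), ∀ ψ ∈ Irr H, Sy ψ → ∀ m : (G → ℂ) → ℕ,
    (∀ χ ∈ Irr G, ∑ᶠ h : H, χ h * ψ h⁻¹ = (m χ : ℂ) * (Nat.card H : ℂ)) →
    symp H ψ =ᶠ[𝓝[≠] 1] fun s => ∏ᶠ χ ∈ Irr G, A.L χ s ^ m χ

/-- a function with `g(s) f(s) = g(2 - s) f(2 - s)` has even order at `1` -/
lemma even_of_fe {g₀ f₀ : ℂ → ℂ} (hg : AnalyticAt ℂ g₀ 1) (hg0 : g₀ 1 ≠ 0)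
    (hf : MeromorphicAt f₀ 1) {n : ℤ} (hn : meromorphicOrderAt f₀ 1 = (n : WithTop ℤ))
    (hfe : (fun s => g₀ s * f₀ s) =ᶠ[𝓝[≠] 1] fun s => g₀ (2 - s) * f₀ (2 - s)) : Even n := by
  set f : ℂ → ℂ := fun s => g₀ s * f₀ s with hfdef
  have hfm : MeromorphicAt f 1 := (hg.meromorphicAt).mul hf
  have hord : meromorphicOrderAt f 1 = (n : WithTop ℤ) := by
    rw [← hn]
    exact Pool.Agent.Q7.SZ.order_gam hg hg0
  obtain ⟨g, hg, hg0, hfg⟩ := (meromorphicOrderAt_eq_int_iff hfm).mp hord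
  have hcont : Tendsto (fun s : ℂ => 2 - s) (𝓝 1) (𝓝 1) := by
    have h1 : ContinuousAt (fun s : ℂ => 2 - s) 1 := by fun_prop
    have h2 : (2 : ℂ) - 1 = 1 := by norm_num
    have h3 := h1.tendsto
    rw [h2] at h3
    exact h3
  have hcont' : Tendsto (fun s : ℂ => 2 - s) (𝓝[≠] 1) (𝓝[≠] 1) := by
    rw [tendsto_nhdsWithin_iff]
    refine ⟨hcont.mono_left nhdsWithin_le_nhds, ?_⟩
    filter_upwards [self_mem_nhdsWithin] with s h1
    intro h2
    apply h1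
    have h3 : (2 : ℂ) - s = 1 := h2
    change s = 1
    linear_combination -h3
  have hrel : ∀ᶠ s in 𝓝[≠] (1 : ℂ), g s = (-1) ^ n * g (2 - s) := by
    filter_upwards [hfe, hfg, hcont'.eventually hfg, self_mem_nhdsWithin] with s h1 h2 h3 h4
    have h5 : f s = f (2 - s) := h1
    rw [h2, h3, smul_eq_mul, smul_eq_mul] at h5
    have h6 : s - 1 ≠ 0 := sub_ne_zero.mpr h4
    have h7 : (2 - s - 1 : ℂ) = (-1) * (s - 1) := by ring
    rw [h7, mul_zpow, mul_assoc, mul_left_comm] at h5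
    exact mul_left_cancel₀ (zpow_ne_zero n h6) h5
  have hlim1 : Tendsto g (𝓝[≠] 1) (𝓝 (g 1)) := hg.continuousAt.tendsto.mono_left nhdsWithin_le_nhds
  have hlim2 : Tendsto (fun s => (-1) ^ n * g (2 - s)) (𝓝[≠] 1) (𝓝 ((-1) ^ n * g 1)) := by
    refine Tendsto.const_mul _ ?_
    exact hg.continuousAt.tendsto.comp (hcont.mono_left nhdsWithin_le_nhds)
  have hlim3 : Tendsto g (𝓝[≠] 1) (𝓝 ((-1) ^ n * g 1)) := by
    refine hlim2.congr' ?_
    filter_upwards [hrel] with s h1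
    exact h1.symm
  have heq := tendsto_nhds_unique hlim1 hlim3
  by_contra hodd
  rw [Int.not_even_iff_odd] at hodd
  rw [hodd.neg_one_zpow] at heq
  apply hg0
  have h2 : (2 : ℂ) * g 1 = 0 := by linear_combination heq
  exact (mul_eq_zero.mp h2).resolve_left two_ne_zero

variable {G : Type} [Group G] [Finite G]

lemma SympEq.evS {A : ArtinData G 1} (B : SympEq A) : EvS (theta A.ord : G → ℂ) := by
  classical
  refine evS_of_sub fun H ψ hψ h1 => ?_
  have : Fintype H := Fintype.ofFinite H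
  choose! m hm using fun χ (hχ : χ ∈ Irr G) => exists_mult_irr hχ H hψ
  have h3 : (fun s => ∏ᶠ χ ∈ Irr G, A.L χ s ^ m χ)
      = fun s => ∏ χ ∈ irrF G, (A.L χ ^ m χ) s := by
    funext s
    rw [finprod_mem_eq_finite_toFinset_prod _ (irr_finite (G := G))]
    rfl
  have hind := B.induce H ψ hψ h1 m hm
  have h2 : meromorphicOrderAt (B.symp H ψ) 1 =
      ((∑ χ ∈ irrF G, (m χ : ℤ) * A.ord χ : ℤ) : WithTop ℤ) := by
    rw [meromorphicOrderAt_congr hind, h3,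
      meromorphicOrderAt_fun_prod (fun χ hχ => ((A.mero χ (mem_irrF.mp hχ)).1).pow _),
      WithTop.coe_sum]
    refine Finset.sum_congr rfl fun χ hχ => ?_
    rw [meromorphicOrderAt_pow ((A.mero χ (mem_irrF.mp hχ)).1), ← A.coe_ord (mem_irrF.mp hχ)]
    push_cast
    rfl
  have hmero : MeromorphicAt (B.symp H ψ) 1 := by
    have h4 : MeromorphicAt (fun s => ∏ χ ∈ irrF G, (A.L χ ^ m χ) s) 1 := by
      have h5 := MeromorphicAt.prod (s := irrF G) (F := fun χ => A.L χ ^ m χ) (x := (1 : ℂ))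
        (fun χ hχ => ((A.mero χ (mem_irrF.mp hχ)).1).pow _)
      have h6 : (∏ χ ∈ irrF G, A.L χ ^ m χ) = fun s => ∏ χ ∈ irrF G, (A.L χ ^ m χ) s := by
        funext s
        rw [Finset.prod_apply]
      rwa [h6] at h5
    rw [← h3] at h4
    exact h4.congr hind.symm
  obtain ⟨k, hk⟩ := even_of_fe (B.gam_an H ψ hψ h1).1 (B.gam_an H ψ hψ h1).2 hmero h2
    (B.fe H ψ hψ h1)
  refine ⟨k, ?_⟩
  have hH : (Nat.card H : ℂ) ≠ 0 := by exact_mod_cast Nat.card_pos.ne'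
  rw [pr_eq]
  have h6 : ∑ h : H, (theta A.ord : G → ℂ) h * ψ h⁻¹
      = ∑ χ ∈ irrF G, (A.ord χ : ℂ) * ((m χ : ℂ) * Nat.card H) := by
    unfold theta
    simp_rw [Finset.sum_mul]
    rw [Finset.sum_comm]
    refine Finset.sum_congr rfl fun χ hχ => ?_
    rw [← hm χ (mem_irrF.mp hχ), finsum_eq_sum_of_fintype, Finset.mul_sum]
    exact Finset.sum_congr rfl fun h _ => by ring
  have h7 : ∑ χ ∈ irrF G, (A.ord χ : ℂ) * ((m χ : ℂ) * Nat.card H)
      = (((∑ χ ∈ irrF G, (m χ : ℤ) * A.ord χ : ℤ)) : ℂ) * Nat.card H := by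
    push_cast
    rw [Finset.sum_mul]
    exact Finset.sum_congr rfl fun χ _ => by ring
  rw [h6, h7, hk]
  push_cast
  field_simp
  ring

/-- **Central zeros of small order for solvable groups** -/
theorem central_solvable [Group.IsSolvable G] (A : ArtinData G 1) (hA : Reflects A)
    (B : TwoDim A) (S : SympEq A) {r : ℕ}
    (hr : meromorphicOrderAt (A.Lin ⊥ 1) 1 = (r : WithTop ℤ)) (hun : CFree True r G) :
    ∀ χ ∈ Irr G, 0 ≤ meromorphicOrderAt (A.L χ) 1 := by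
  intro χ hχ
  exact order_nonneg A hχ (cmain True r _ G rfl inferInstance hun (theta A.ord) A.isHeilbronn
    (theta_virt _) (theta_real (map_one _) hA) S.evS ⟨r, le_rfl, A.theta_one hr⟩
    (fun _ => B.twoPos) χ hχ)

end Pool.Agent.Q7.CS
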